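import Pool.Agent.H5.EG.Spec2

/-!
# MP_98cfca_co, Q1: the differential operator

`op` proves `S_op` from `S_core1`.
-/

set_option autoImplicit false

namespace Pool.Agent.H707.EG

open PowerSeries Pool.Agent.H5.EG

/-- The coefficients of index at most `X ^ 2` are at most `X ^ c`. -/
def Bd (X c : ℕ) (h : PowerSeries ℤ) : Prop :=
  ∀ n ≤ X ^ 2, |PowerSeries.coeff n h| ≤ (X : ℤ) ^ c

theorem Bd.mono {X c c' : ℕ} (hX : 2 ≤ X) {h : PowerSeries ℤ} (hh : Bd X c h) (hc : c ≤ c') :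
    Bd X c' h := by
  intro n hn
  exact (hh n hn).trans (pow_le_pow_right₀ (by exact_mod_cast (by omega : 1 ≤ X)) hc)

theorem Bd.zero (X c : ℕ) : Bd X c 0 := by
  intro n _
  simp

theorem Bd.one {X : ℕ} (hX : 2 ≤ X) (c : ℕ) : Bd X c 1 := by
  intro n _
  have h1 : (1 : ℤ) ≤ (X : ℤ) ^ c := one_le_pow₀ (by exact_mod_cast (by omega : 1 ≤ X))
  rw [PowerSeries.coeff_one]
  split_ifs
  · simpa using h1
  · simp

theorem Bd.neg {X c : ℕ} {h : PowerSeries ℤ} (hh : Bd X c h) : Bd X c (-h) := by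
  intro n hn
  rw [map_neg, abs_neg]
  exact hh n hn

theorem Bd.mul {X c c' : ℕ} (hX : 2 ≤ X) {h h' : PowerSeries ℤ} (hh : Bd X c h)
    (hh' : Bd X c' h') : Bd X (c + c' + 3) (h * h') := by
  intro n hn
  have hX' : (2 : ℤ) ≤ X := by exact_mod_cast hX
  rw [PowerSeries.coeff_mul]
  calc |∑ p ∈ Finset.HasAntidiagonal.antidiagonal n, PowerSeries.coeff p.1 h * PowerSeries.coeff p.2 h'|
      ≤ ∑ p ∈ Finset.HasAntidiagonal.antidiagonal n, |PowerSeries.coeff p.1 h * PowerSeries.coeff p.2 h'| :=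
        Finset.abs_sum_le_sum_abs _ _
    _ ≤ ∑ p ∈ Finset.HasAntidiagonal.antidiagonal n, (X : ℤ) ^ (c + c') := by
      refine Finset.sum_le_sum fun p hp => ?_
      have h1 := Finset.HasAntidiagonal.mem_antidiagonal.1 hp
      rw [abs_mul, pow_add]
      exact mul_le_mul (hh _ (by omega)) (hh' _ (by omega)) (abs_nonneg _) (by positivity)
    _ = ((n : ℤ) + 1) * (X : ℤ) ^ (c + c') := by simp [Finset.Nat.card_antidiagonal]
    _ ≤ (X : ℤ) ^ 3 * (X : ℤ) ^ (c + c') := by
      have h2 : (n : ℤ) ≤ (X : ℤ) ^ 2 := by exact_mod_cast hn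
      have h3 : (n : ℤ) + 1 ≤ (X : ℤ) ^ 3 := by nlinarith [sq_nonneg (X : ℤ)]
      gcongr
    _ = _ := by ring

theorem Bd.add {X c : ℕ} (hX : 2 ≤ X) {h h' : PowerSeries ℤ} (hh : Bd X c h)
    (hh' : Bd X c h') : Bd X (c + 1) (h + h') := by
  intro n hn
  have hX' : (2 : ℤ) ≤ X := by exact_mod_cast hX
  have h0 : (0 : ℤ) ≤ (X : ℤ) ^ c := by positivity
  rw [map_add]
  calc |PowerSeries.coeff n h + PowerSeries.coeff n h'|
      ≤ |PowerSeries.coeff n h| + |PowerSeries.coeff n h'| := abs_add_le _ _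
    _ ≤ (X : ℤ) ^ c + (X : ℤ) ^ c := add_le_add (hh n hn) (hh' n hn)
    _ ≤ _ := by rw [pow_succ]; nlinarith

theorem Bd.deriv {X c : ℕ} {h : PowerSeries ℤ} (hh : Bd X c h) : Bd X (c + 2) (D h) := by
  intro n hn
  have h2 : (n : ℤ) ≤ (X : ℤ) ^ 2 := by exact_mod_cast hn
  rw [coeff_D, abs_mul, pow_add, mul_comm]
  refine mul_le_mul (hh n hn) ?_ (abs_nonneg _) (by positivity)
  rwa [abs_of_nonneg (by positivity)]

theorem Bd.gen {X : ℕ} (hX : 2 ≤ X) {s : ℕ → ℤ} (hs : ∀ n ≤ X ^ 2, |s n| ≤ (X : ℤ) ^ 4) (l : ℕ) :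
    Bd X (8 * l) (G (gg s) l) := by
  induction l with
  | zero => exact Bd.one hX _
  | succ l ih =>
    have hg : Bd X 4 (gg s) := by
      intro n hn
      rw [gg, PowerSeries.coeff_mk, abs_neg]
      exact hs n hn
    have h1 : Bd X (8 * l + 7) (D (G (gg s) l)) := ih.deriv.mono hX (by omega)
    have h2 : Bd X (8 * l + 7) (gg s * G (gg s) l) := (hg.mul hX ih).mono hX (by omega)
    exact (h1.add hX h2).mono hX (by omega)

theorem Bd.prod {X c : ℕ} (hX : 2 ≤ X) {ι : Type} [DecidableEq ι] (S : Finset ι)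
    (h : ι → PowerSeries ℤ) (hh : ∀ i ∈ S, Bd X c (h i)) : Bd X (S.card * (c + 3)) (∏ i ∈ S, h i) := by
  induction S using Finset.induction_on with
  | empty => exact Bd.one hX _
  | insert a S ha ih =>
    rw [Finset.prod_insert ha, Finset.card_insert_of_notMem ha]
    exact ((hh a (Finset.mem_insert_self _ _)).mul hX
      (ih fun i hi => hh i (Finset.mem_insert_of_mem hi))).mono hX (by nlinarith)

theorem Bd.sum {X c : ℕ} (hX : 2 ≤ X) {ι : Type} (S : Finset ι)
    (h : ι → PowerSeries ℤ) (hh : ∀ i ∈ S, Bd X c (h i)) : Bd X (S.card + c) (∑ i ∈ S, h i) := by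
  intro n hn
  have hX' : (1 : ℤ) ≤ X := by exact_mod_cast (by omega : 1 ≤ X)
  rw [map_sum]
  calc |∑ i ∈ S, PowerSeries.coeff n (h i)| ≤ ∑ i ∈ S, |PowerSeries.coeff n (h i)| :=
        Finset.abs_sum_le_sum_abs _ _
    _ ≤ ∑ i ∈ S, (X : ℤ) ^ c := Finset.sum_le_sum fun i hi => hh i hi n hn
    _ = (S.card : ℤ) * (X : ℤ) ^ c := by simp
    _ ≤ (X : ℤ) ^ S.card * (X : ℤ) ^ c := by
      have : (S.card : ℤ) ≤ (X : ℤ) ^ S.card := by
        exact_mod_cast (Nat.lt_pow_self (by omega : 1 < X)).le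
      gcongr
    _ = _ := by rw [pow_add]

theorem Bd.det {X c b : ℕ} (hX : 2 ≤ X) (M : Matrix (Fin b) (Fin b) (PowerSeries ℤ))
    (hM : ∀ i j, Bd X c (M i j)) : Bd X (b.factorial + b * (c + 3)) M.det := by
  rw [Matrix.det_apply]
  have h1 : (Finset.univ : Finset (Equiv.Perm (Fin b))).card = b.factorial := by
    rw [Finset.card_univ, Fintype.card_perm, Fintype.card_fin]
  rw [← h1]
  refine Bd.sum hX _ _ fun σ _ => ?_
  have h2 : Bd X (b * (c + 3)) (∏ i, M (σ i) i) := by
    have := Bd.prod hX Finset.univ (fun i => M (σ i) i) (fun i _ => hM _ _)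
    simpa using this
  rcases Int.units_eq_one_or (Equiv.Perm.sign σ) with h | h
  · rw [h, one_smul]; exact h2
  · rw [h, Units.neg_smul, one_smul]; exact h2.neg

/-- The coefficients of the operator, indexed by `Fin (b + 1)`. -/
noncomputable def co {b : ℕ} (F : Fin b → Fn) (j : Fin (b + 1)) : PowerSeries ℤ :=
  (-1) ^ (j : ℕ) * (Matrix.of fun i (l : Fin b) => G (gg (F i).s) (j.succAbove l)).det

theorem co_kill {b : ℕ} (F : Fin b → Fn) (t : Fin b) :
    ∑ j : Fin (b + 1), co F j * G (gg (F t).s) j = 0 := by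
  have h := Matrix.det_succ_row_zero (Matrix.of
    (Fin.cons (fun j : Fin (b + 1) => G (gg (F t).s) j) (fun (i : Fin b) (j : Fin (b + 1)) => G (gg (F i).s) j) :
      Fin (b + 1) → Fin (b + 1) → PowerSeries ℤ))
  rw [Matrix.det_zero_of_row_eq (i := 0) (j := t.succ) (Fin.succ_ne_zero t).symm (by ext j; simp)] at h
  rw [h]
  refine Finset.sum_congr rfl fun j _ => ?_
  rw [co, mul_right_comm]
  rfl

theorem co_last {b : ℕ} (F : Fin b → Fn) : co F (Fin.last b) = (-1) ^ b * Dl F := by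
  rw [co, Dl]
  simp

theorem co_bd {b B X : ℕ} (hX : 2 ≤ X) (hb : b ≤ B) (F : Fin b → Fn)
    (hF : ∀ t, ∀ n ≤ X ^ 2, |(F t).s n| ≤ (X : ℤ) ^ 4) (j : Fin (b + 1)) :
    Bd X (B.factorial + B * (8 * B + 3)) (co F j) := by
  have h1 : Bd X (B.factorial + B * (8 * B + 3))
      (Matrix.of fun i (l : Fin b) => G (gg (F i).s) (j.succAbove l)).det := by
    refine (Bd.det (c := 8 * B) hX _ fun i l => ?_).mono hX ?_
    · refine (Bd.gen hX (hF i) _).mono hX ?_
      have := (j.succAbove l).2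
      omega
    · exact Nat.add_le_add (Nat.factorial_le hb) (Nat.mul_le_mul_right _ hb)
  rw [co]
  rcases neg_one_pow_eq_or (PowerSeries ℤ) (j : ℕ) with h | h
  · rw [h, one_mul]; exact h1
  · rw [h, neg_one_mul]; exact h1.neg

/-- **op.** -/
theorem op (h1 : S_core1) : S_op := by
  intro B
  refine ⟨B.factorial + B * (8 * B + 3), ?_⟩
  intro F W T X hX hI hR hs
  obtain ⟨b, hb⟩ : ∃ b, b = T.card := ⟨_, rfl⟩
  have hbB : b ≤ B := by
    rw [hb]
    simpa using Finset.card_le_univ T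
  let e : Fin b ≃ T := (Fintype.equivFinOfCardEq (by simp [hb])).symm
  let F' : Fin b → Fn := fun i => F (e i)
  -- independence
  have hI' : ∀ d : Fin b → ℂ, (∀ k < X, ∑ i, d i * cf (F' i).f k = 0) → ∀ i, d i = 0 := by
    intro d hd i
    have h2 := hI (fun t => if h : t ∈ T then d (e.symm ⟨t, h⟩) else 0) (by
      intro k hk
      rw [← Finset.sum_coe_sort, ← hd k hk, ← Equiv.sum_comp e]
      refine Finset.sum_congr rfl fun i _ => ?_
      have : ((e i : T) : Fin B) ∈ T := (e i).2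
      simp [F'])
    have h3 := h2 (e i) (e i).2
    simpa using h3
  obtain ⟨ν, M, hν, hM, -, hM2, -⟩ := h1 b X F' hI'
  have hne : PowerSeries.coeff ν (Dl F') ≠ 0 := by
    intro h0
    rw [h0] at hM2
    simp at hM2
    linarith
  -- the operator
  let A' : ℕ → PowerSeries ℤ := fun n => if h : n < b + 1 then co F' ⟨n, h⟩ else 0
  have hA' : ∀ j : Fin (b + 1), A' j = co F' j := fun j => by simp only [A', dif_pos j.2]
  have hex : ∃ m, ∃ i : Fin (B + 1), PowerSeries.coeff m (A' i) ≠ 0 := by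
    refine ⟨ν, ⟨b, by omega⟩, ?_⟩
    have : A' b = (-1) ^ b * Dl F' := by
      rw [← co_last]
      exact hA' (Fin.last b)
    simp only [this]
    rcases neg_one_pow_eq_or (PowerSeries ℤ) b with h | h
    · rw [h, one_mul]; exact hne
    · rw [h, neg_one_mul, map_neg]; exact neg_ne_zero.2 hne
  have hmin : Nat.find hex ≤ ν := by
    refine Nat.find_min' hex ⟨⟨b, by omega⟩, ?_⟩
    have : A' b = (-1) ^ b * Dl F' := by
      rw [← co_last]
      exact hA' (Fin.last b)
    simp only [this]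
    rcases neg_one_pow_eq_or (PowerSeries ℤ) b with h | h
    · rw [h, one_mul]; exact hne
    · rw [h, neg_one_mul, map_neg]; exact neg_ne_zero.2 hne
  refine ⟨fun i => A' i, Nat.find hex, ?_, Nat.find_spec hex, ?_, ?_, ?_⟩
  · exact hmin.trans (hν.trans (Nat.mul_le_mul_right _ hbB))
  · intro i n hn
    by_contra h
    exact Nat.find_min hex hn ⟨i, h⟩
  · intro i n hn
    show |PowerSeries.coeff n (A' i)| ≤ _
    by_cases h : (i : ℕ) < b + 1
    · have : A' i = co F' ⟨i, h⟩ := by simp only [A', dif_pos h]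
      rw [this]
      exact co_bd hX hbB F' (fun t n hn => hs _ (e t).2 n hn) _ n hn
    · have : A' i = 0 := by simp only [A', dif_neg h]
      rw [this]
      exact Bd.zero X _ n hn
  · -- the operator kills the functions `F t`
    have hkill : ∀ t ∈ T, ∑ i : Fin (B + 1), A' i * D^[(i : ℕ)] (F t).f = 0 := by
      intro t ht
      have h3 : ∑ i : Fin (B + 1), A' i * D^[(i : ℕ)] (F t).f =
          ∑ i : Fin (b + 1), A' i * D^[(i : ℕ)] (F t).f := by
        rw [Fin.sum_univ_eq_sum_range (fun i => A' i * D^[i] (F t).f) (B + 1),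
          Fin.sum_univ_eq_sum_range (fun i => A' i * D^[i] (F t).f) (b + 1)]
        symm
        refine Finset.sum_subset (Finset.range_mono (by omega)) fun i _ hi => ?_
        have : A' i = 0 := by
          simp only [Finset.mem_range] at hi
          simp only [A', dif_neg hi]
        rw [this, zero_mul]
      rw [h3]
      have h4 : F t = F' (e.symm ⟨t, ht⟩) := by simp [F']
      have h5 := co_kill F' (e.symm ⟨t, ht⟩)
      rw [h4]
      calc ∑ i : Fin (b + 1), A' i * D^[(i : ℕ)] (F' (e.symm ⟨t, ht⟩)).f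
          = ∑ i : Fin (b + 1), (co F' i * G (gg (F' (e.symm ⟨t, ht⟩)).s) i) *
              (F' (e.symm ⟨t, ht⟩)).f := by
            refine Finset.sum_congr rfl fun i _ => ?_
            rw [hA', D_iter_eq (F' (e.symm ⟨t, ht⟩)).eq, mul_assoc]
        _ = 0 := by rw [← Finset.sum_mul, h5, zero_mul]
    obtain ⟨c, hc⟩ := hR
    intro n hn
    have hcast : ((PowerSeries.coeff n (∑ i : Fin (B + 1), A' i * D^[(i : ℕ)] W) : ℤ) : ℂ) = 0 := by
      have h6 : ∀ V : PowerSeries ℤ,
          ((PowerSeries.coeff n (∑ i : Fin (B + 1), A' i * D^[(i : ℕ)] V) : ℤ) : ℂ) =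
          ∑ i : Fin (B + 1), ∑ p ∈ Finset.HasAntidiagonal.antidiagonal n,
            ((PowerSeries.coeff p.1 (A' i) : ℤ) : ℂ) * ((p.2 : ℂ) ^ (i : ℕ) * cf V p.2) := by
        intro V
        rw [map_sum, Int.cast_sum]
        refine Finset.sum_congr rfl fun i _ => ?_
        rw [PowerSeries.coeff_mul, Int.cast_sum]
        refine Finset.sum_congr rfl fun p _ => ?_
        rw [coeff_D_iter, cf]
        push_cast
        ring
      rw [h6]
      have h7 : ∀ i : Fin (B + 1), ∑ p ∈ Finset.HasAntidiagonal.antidiagonal n,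
            ((PowerSeries.coeff p.1 (A' i) : ℤ) : ℂ) * ((p.2 : ℂ) ^ (i : ℕ) * cf W p.2) =
          ∑ t ∈ T, c t * ∑ p ∈ Finset.HasAntidiagonal.antidiagonal n,
            ((PowerSeries.coeff p.1 (A' i) : ℤ) : ℂ) * ((p.2 : ℂ) ^ (i : ℕ) * cf (F t).f p.2) := by
        intro i
        simp_rw [Finset.mul_sum]
        rw [Finset.sum_comm]
        refine Finset.sum_congr rfl fun p hp => ?_
        have h8 := Finset.HasAntidiagonal.mem_antidiagonal.1 hp
        rw [hc p.2 (by omega), Finset.mul_sum, Finset.mul_sum]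
        refine Finset.sum_congr rfl fun t _ => ?_
        ring
      rw [Finset.sum_congr rfl fun i _ => h7 i, Finset.sum_comm]
      refine Finset.sum_eq_zero fun t ht => ?_
      rw [← Finset.mul_sum, ← h6 (F t).f, hkill t ht]
      simp
    exact_mod_cast hcast

end Pool.Agent.H707.EG
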